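import Pool.Agent.H38.WC.Proof

/-!
# MP_307c8f_gt: Witten's formula for manifolds with an almost tight surface (abstract system)

In an arbitrary system of manifolds, invariants and embedded surfaces which has the properties
listed in `KnownU`: the full form of Witten's conjecture holds for every manifold which contains
an embedded surface of genus `g` and positive square `2 g - 3`.
-/

set_option autoImplicit false

open Pool.Agent.H66.WC Pool.Agent.H38.WC

/-- The full form of Witten's conjecture holds for every manifold with an embedded surface of
genus `g` and positive square `2 g - 2 - m` in a class `m U` with `U²` odd and `1 ≤ m ≤ 3`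
(for `m = 1`: with an embedded surface of genus `g ≥ 2` and square `2 g - 3`). -/
theorem Pool.Agent.Results.MP_307c8f_gt.AlmostTight.result :
    ∀ D : Sys, KnownU D → ∀ (X : D.M) (S U : D.H X) (g m : ℕ), 1 ≤ g → 1 ≤ m → m ≤ 3 →
      D.emb X S g → S = m • U → Odd (D.Q X U U) → D.Q X S S = 2 * g - 2 - m →
      1 ≤ D.Q X S S → WittenFull D X :=
  fun _ A X S U g m hg hm1 hm3 he hSU hU hq hpos => almost A X S U g m hg hm1 hm3 he hSU hU hq hpos
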