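import Pool.Agent.H38.WC.Proof

/-!
# MP_307c8f_gt: Witten's formula with one constant on all extremal classes (abstract system)

In an arbitrary system of manifolds, invariants and embedded surfaces which has the properties
listed in `KnownU`: on every class which is extremal in the adjunction inequality of some embedded
surface the coefficient of the Donaldson series is `2 ^ (2 + (7 e + 11 σ) / 4)` times the
Seiberg-Witten invariant, with the same constant for all surfaces.
-/

set_option autoImplicit false

open Pool.Agent.H66.WC Pool.Agent.H38.WC

/-- For every manifold of simple type: `β(K) = 2 ^ (2 + (7 e + 11 σ) / 4) SW(K)` for all `K` which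
are extremal for some surface; if all basic classes are extremal for some surface, then the full
form of Witten's conjecture holds. -/
theorem Pool.Agent.Results.MP_307c8f_gt.DetectedClasses.result :
    ∀ D : Sys, KnownU D → ∀ X : D.M, D.Simple X →
      (∀ K, Extremal D X K → D.β X K = wc D X * D.SW X K) ∧
      ((∀ K, D.β X K ≠ 0 ∨ D.SW X K ≠ 0 → Extremal D X K) → WittenFull D X) :=
  fun _ A X hX => main A X hX
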