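import Pool.Agent.H65.WS.Proof

/-!
# MP_307c8f_gt: Witten's formula and minimal symplectic manifolds (abstract system)

In an arbitrary system of manifolds, invariants and embedded surfaces which has the properties
listed in `KnownU`, and for every predicate `Sp X κ` (`X` is minimal symplectic with canonical
class `κ`) with the property `Taubes`: if `κ² > 0` and `X` is of Donaldson simple type, then the
coefficient of the Donaldson series on every Seiberg-Witten basic class is the one predicted by
Witten, constant included; if `κ² = 1`, or if `κ² = 0` and the intersection form is odd, then the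
full form of Witten's conjecture holds for `X`.
-/

set_option autoImplicit false

open Pool.Agent.H66.WC Pool.Agent.H38.WC Pool.Agent.H65.WS

/-- Minimal symplectic manifolds: Witten's formula on all Seiberg-Witten basic classes if
`κ² > 0` (`X` of Donaldson simple type or `κ² ≤ 3`); the full form of the conjecture if `κ² = 1`,
or if `κ² = 0` and some class has odd square. -/
theorem Pool.Agent.Results.MP_307c8f_gt.SymplecticManifolds.result :
    ∀ D : Sys, KnownU D → ∀ Sp : (∀ X : D.M, D.H X → Prop), Taubes D Sp →
      ∀ (X : D.M) (κ : D.H X), Sp X κ →
        (0 < D.Q X κ κ → (D.DST X ∨ D.Q X κ κ ≤ 3) →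
          ∀ K, D.SW X K ≠ 0 → D.β X K = wc D X * D.SW X K) ∧
        ((D.Q X κ κ = 1 ∨ D.Q X κ κ = 0 ∧ ∃ w, Odd (D.Q X w w)) → WittenFull D X) :=
  fun _ A Sp T X κ hX => Pool.Agent.H65.WS.main A Sp T X κ hX
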