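import Pool.Agent.H66.WC.Proof

/-!
# MP_307c8f_gt: Witten's formula for manifolds with a tight surface (abstract system)

In an arbitrary system of manifolds, invariants and embedded surfaces which has the properties
listed in `Known` the two additional hypotheses of the theorem of Kronheimer and Mrowka quoted in
the problem file (a sphere of square `-1`; Euler number and signature those of a hypersurface) are
not necessary: Witten's formula holds for every manifold which contains a tight surface of genus
at least two, or a torus of square zero in an odd class.
-/

set_option autoImplicit false

open Pool.Agent.H66.WC

/-- Witten's formula holds for every manifold with a tight surface of genus `≥ 2` or with a tight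
torus in an odd class. -/
theorem Pool.Agent.Results.MP_307c8f_gt.TightSurfaces.result :
    ∀ D : Sys, Known D → ∀ (X : D.M) (S : D.H X) (g : ℕ), D.Tight X S g →
      (2 ≤ g ∨ D.Oddc X S) → D.Witten X :=
  fun _ A X S g h hodd => tight A X S g h hodd
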